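import Pool.Agent.V11266.PF3

set_option autoImplicit false

namespace Pool.Agent.Results.MP_41af23_an.FacesNotCombinatorial

open Pool.Agent.V11266.PF MeasureTheory

/-! The two configurations are `S = {0, 1, 2, i, 1+i, 2+i}` and `S' = {0, 1, 2, i, 1+i, 3+i}`. They
have the same chirotope; the cone `Kpos S` has exactly 16 facets and `Kpos S'` has exactly 17. -/

def Y2 : Fin 16 → ℕ := ![2, 11, 14, 2, 8, 11, 11, 14, 1, 2, 2, 8, 11, 1, 2, 2]
def X2 : Fin 16 → ℕ := ![1, 10, 13, 3, 13, 19, 21, 27, 3, 19, 21, 25, 30, 22, 37, 39]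
def Y3 : Fin 17 → ℕ := ![2, 11, 14, 1, 6, 11, 8, 9, 11, 1, 2, 1, 6, 8, 1, 2, 1]
def X3 : Fin 17 → ℕ := ![1, 10, 13, 2, 15, 19, 21, 23, 30, 4, 19, 21, 29, 33, 23, 37, 40]

/-- witness vectors for the irredundancy of the 17 inequalities -/
def W : Fin 17 → Fin 9 → ℤ := ![![0, 1, 0, 1, -1, 0, 0, 0, -1], ![1, 1, 0, -1, 0, 0, 1, -1, -1],
  ![1, 1, 0, 0, 0, 0, -1, 0, -1], ![1, -1, 1, 1, 0, -1, 0, 0, -1], ![2, -1, 1, -1, 1, -1, 1, -1, -1],
  ![2, -1, 0, 0, 1, 0, -1, 0, -1], ![1, 0, 1, 0, -1, 0, 1, 0, -2], ![1, 0, 1, 1, -1, 0, -1, 1, -2],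
  ![1, 0, 1, 0, 0, 0, 0, -1, -1], ![1, 0, -1, 1, 0, 0, 0, 0, -1], ![2, 0, -1, -1, 1, 0, 0, 0, -1],
  ![1, 1, -1, 0, -1, 1, 1, 0, -2], ![1, 1, -1, 1, -1, 1, -1, 1, -2], ![1, 1, -1, 0, 0, 1, 0, -1, -1],
  ![1, 0, 0, 0, 0, -1, 1, 0, -1], ![1, 0, 0, 1, 0, -1, -1, 1, -1], ![1, 0, 0, 0, 1, -1, 0, -1, 0]]

def Wc (i : Fin 17) (p : Cell) : ℤ := W i ⟨3 * p.1.val + p.2.val, by omega⟩

def IsDown (P : Finset Cell) : Prop := ∀ p ∈ P, ∀ q : Cell, q.1 ≤ p.1 → q.2 ≤ p.2 → q ∈ P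
instance (P : Finset Cell) : Decidable (IsDown P) := by unfold IsDown; infer_instance
def GoodA (P : Finset Cell) : Prop :=
  ((1, 1) : Cell) ∈ P → ((0, 2) : Cell) ∈ P ∨ ((2, 0) : Cell) ∈ P
instance (P : Finset Cell) : Decidable (GoodA P) := by unfold GoodA; infer_instance
def GoodB (P : Finset Cell) : Prop :=
  ((0, 2) : Cell) ∈ P → ((2, 0) : Cell) ∈ P → ((1, 1) : Cell) ∈ P
instance (P : Finset Cell) : Decidable (GoodB P) := by unfold GoodB; infer_instance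

theorem comp2 : ∀ P : Finset Cell, IsDown P → GoodA P → GoodB P →
    P = ∅ ∨ P = Finset.univ ∨ ∃ i, P = PP 2 (Y2 i) (X2 i) := by
  decide +kernel

theorem comp3 : ∀ P : Finset Cell, IsDown P → GoodB P →
    P = ∅ ∨ P = Finset.univ ∨ ∃ i, P = PP 3 (Y3 i) (X3 i) := by
  decide +kernel

theorem tie2 : ∀ i (p : Cell), (20 - Y2 i) * aN p.1 + Y2 i * bN 2 p.2 ≠ X2 i := by decide +kernel
theorem tie3 : ∀ i (p : Cell), (20 - Y3 i) * aN p.1 + Y3 i * bN 3 p.2 ≠ X3 i := by decide +kernel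
theorem hY2 : ∀ i, 0 < Y2 i ∧ Y2 i < 20 := by decide
theorem hY3 : ∀ i, 0 < Y3 i ∧ Y3 i < 20 := by decide
theorem h00_2 : ∀ i, ((0, 0) : Cell) ∈ PP 2 (Y2 i) (X2 i) := by decide +kernel
theorem h00_3 : ∀ i, ((0, 0) : Cell) ∈ PP 3 (Y3 i) (X3 i) := by decide +kernel
theorem h22_2 : ∀ i, ((2, 2) : Cell) ∉ PP 2 (Y2 i) (X2 i) := by decide +kernel
theorem h22_3 : ∀ i, ((2, 2) : Cell) ∉ PP 3 (Y3 i) (X3 i) := by decide +kernel

theorem W_sum : ∀ i, ∑ p, Wc i p = 0 := by decide +kernel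
theorem W_zero : ∀ i, ∑ p ∈ PP 3 (Y3 i) (X3 i), Wc i p = 0 := by decide +kernel
theorem W_pos : ∀ i j, j ≠ i → 0 < ∑ p ∈ PP 3 (Y3 j) (X3 j), Wc i p := by decide +kernel

theorem down (T : ℕ) (hT : 1 < T) (z : ℂ) (h0 : 0 < z.im) (h1 : z.im < 1) :
    IsDown (PZ T z) := by
  intro p hp q hq1 hq2
  have hp' : xx T p z.im < z.re := (Finset.mem_filter.1 hp).2
  refine Finset.mem_filter.2 ⟨Finset.mem_univ _, lt_of_le_of_lt ?_ hp'⟩
  have ha : (aN q.1 : ℝ) ≤ aN p.1 := by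
    rcases hq1.eq_or_lt with h | h
    · rw [h]
    · exact_mod_cast (aN_mono h).le
  have hb : (bN T q.2 : ℝ) ≤ bN T p.2 := by
    rcases hq2.eq_or_lt with h | h
    · rw [h]
    · exact_mod_cast (bN_mono hT h).le
  unfold xx
  have e1 := mul_le_mul_of_nonneg_left ha (show (0:ℝ) ≤ 1 - z.im by linarith)
  have e2 := mul_le_mul_of_nonneg_left hb h0.le
  linarith

theorem mem_PZ (T : ℕ) (z : ℂ) (p : Cell) : p ∈ PZ T z ↔ xx T p z.im < z.re := by simp [PZ]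

theorem hcomp2 (z : ℂ) (h0 : 0 < z.im) (h1 : z.im < 1) :
    PZ 2 z = ∅ ∨ PZ 2 z = Finset.univ ∨ ∃ i, PZ 2 z = PP 2 (Y2 i) (X2 i) := by
  apply comp2 _ (down 2 (by norm_num) z h0 h1)
  · intro h
    rw [mem_PZ] at *
    rw [mem_PZ]
    by_contra hcon
    push Not at hcon
    obtain ⟨k1, k2⟩ := hcon
    simp [xx, aN, bN] at h k1 k2
    linarith
  · intro k1 k2
    rw [mem_PZ] at *
    simp [xx, aN, bN] at k1 k2 ⊢
    linarith

theorem hcomp3 (z : ℂ) (h0 : 0 < z.im) (h1 : z.im < 1) :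
    PZ 3 z = ∅ ∨ PZ 3 z = Finset.univ ∨ ∃ i, PZ 3 z = PP 3 (Y3 i) (X3 i) := by
  apply comp3 _ (down 3 (by norm_num) z h0 h1)
  intro k1 k2
  rw [mem_PZ] at *
  simp [xx, aN, bN] at k1 k2 ⊢
  linarith

theorem pres2 : Pres (Kpos (SS 2)) (polyMeasures (SS 2))
    (fun i => evalL (BB 2 (PP 2 (Y2 i) (X2 i)))) (LL 2 (Pi.single (0, 0) 1 - Pi.single (2, 2) 1)) :=
  pres 2 (by norm_num) (by norm_num) Y2 X2 hY2 tie2 h00_2 h22_2 hcomp2
theorem pres3 : Pres (Kpos (SS 3)) (polyMeasures (SS 3))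
    (fun i => evalL (BB 3 (PP 3 (Y3 i) (X3 i)))) (LL 3 (Pi.single (0, 0) 1 - Pi.single (2, 2) 1)) :=
  pres 3 (by norm_num) (by norm_num) Y3 X3 hY3 tie3 h00_3 h22_3 hcomp3

theorem un3 (i : Fin 17) : PP 3 (Y3 i) (X3 i) ≠ Finset.univ := by
  intro h; exact h22_3 i (h ▸ Finset.mem_univ _)

theorem witness (i : Fin 17) : ∃ w ∈ Kpos (SS 3), evalL (BB 3 (PP 3 (Y3 i) (X3 i))) w = 0 ∧
    ∀ j, j ≠ i → 0 < evalL (BB 3 (PP 3 (Y3 j) (X3 j))) w := by
  have hval : ∀ j, evalL (BB 3 (PP 3 (Y3 j) (X3 j))) (LL 3 (fun p => (Wc i p : ℝ)))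
      = ((∑ p ∈ PP 3 (Y3 j) (X3 j), Wc i p : ℤ) : ℝ) * volume.real (BB 3 (PP 3 (Y3 j) (X3 j))) := by
    intro j
    show LL 3 (fun p => (Wc i p : ℝ)) (BB 3 (PP 3 (Y3 j) (X3 j))) = _
    rw [LL_BB 3 (by norm_num) (by norm_num) (un3 j)]
    push_cast
    rfl
  have hpos : ∀ j, 0 < volume.real (BB 3 (PP 3 (Y3 j) (X3 j))) := fun j =>
    BB_pos 3 (by norm_num) (by norm_num) _ _ (hY3 j).1 (hY3 j).2 (tie3 j) ⟨_, h00_3 j⟩ (un3 j)
  have hgt : ∀ j, j ≠ i → 0 < evalL (BB 3 (PP 3 (Y3 j) (X3 j))) (LL 3 (fun p => (Wc i p : ℝ))) := by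
    intro j hj
    rw [hval]
    have h := W_pos i j hj
    exact mul_pos (by exact_mod_cast h) (hpos j)
  have hz : evalL (BB 3 (PP 3 (Y3 i) (X3 i))) (LL 3 (fun p => (Wc i p : ℝ))) = 0 := by
    rw [hval, W_zero i]; simp
  refine ⟨LL 3 (fun p => (Wc i p : ℝ)), ?_, hz, hgt⟩
  rw [pres3.mem]
  refine ⟨LL_mem 3 (by norm_num) (by norm_num) ?_, fun j => ?_⟩
  · have h := W_sum i
    have h2 : ((∑ p, Wc i p : ℤ) : ℝ) = 0 := by rw [h]; simp
    push_cast at h2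
    exact h2
  · by_cases hj : j = i
    · subst hj; exact hz.ge
    · exact (hgt j hj).le

theorem pt_injective (T : ℕ) (hT : 1 < T) : Function.Injective (pt T) := by
  intro x y h
  have haN : Function.Injective aN := by
    intro i j; revert i j; decide
  have hbN : Function.Injective (bN T) := by
    intro i j hij
    rcases lt_trichotomy i j with h | h | h
    · exact absurd hij (bN_mono hT h).ne
    · exact h
    · exact absurd hij (bN_mono hT h).ne'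
  rcases x with i | i <;> rcases y with j | j
  · have := congrArg Complex.re h
    simp only [pt, Sum.elim_inl] at this
    have h2 : aN i = aN j := by exact_mod_cast this
    rw [haN h2]
  · have := congrArg Complex.im h
    simp [pt] at this
  · have := congrArg Complex.im h
    simp [pt] at this
  · have := congrArg Complex.re h
    simp only [pt, Sum.elim_inr] at this
    have h2 : bN T i = bN T j := by exact_mod_cast this
    rw [hbN h2]

theorem sign_sub_eq (m n m' n' : ℕ) (h1 : m < n ↔ m' < n') (h2 : n < m ↔ n' < m') :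
    SignType.sign ((m : ℝ) - n) = SignType.sign ((m' : ℝ) - n') := by
  rcases lt_trichotomy m n with h | h | h
  · have h' := h1.1 h
    have e1 : (m : ℝ) < n := by exact_mod_cast h
    have e2 : (m' : ℝ) < n' := by exact_mod_cast h'
    rw [sign_neg (by linarith), sign_neg (by linarith)]
  · subst h
    have h' : m' = n' := by
      rcases lt_trichotomy m' n' with h3 | h3 | h3
      · exact absurd (h1.2 h3) (lt_irrefl _)
      · exact h3
      · exact absurd (h2.2 h3) (lt_irrefl _)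
    subst h'
    simp
  · have h' := h2.1 h
    have e1 : (n : ℝ) < m := by exact_mod_cast h
    have e2 : (n' : ℝ) < m' := by exact_mod_cast h'
    rw [sign_pos (by linarith), sign_pos (by linarith)]

theorem bsign (j k : Fin 3) :
    SignType.sign ((bN 3 j : ℝ) - bN 3 k) = SignType.sign ((bN 2 j : ℝ) - bN 2 k) := by
  apply sign_sub_eq <;> revert j k <;> decide

theorem chi_same (x y z : Fin 3 ⊕ Fin 3) :
    chi (pt 3 x) (pt 3 y) (pt 3 z) = chi (pt 2 x) (pt 2 y) (pt 2 z) := by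
  rcases x with i | i <;> rcases y with j | j <;> rcases z with k | k
  · rw [chi_AAA, chi_AAA]
  · rw [chi_AAB, chi_AAB]
  · rw [chi_ABA, chi_ABA]
  · rw [chi_ABB, chi_ABB, bsign]
  · rw [chi_BAA, chi_BAA]
  · rw [chi_BAB, chi_BAB, bsign]
  · rw [chi_BBA, chi_BBA, bsign]
  · rw [chi_BBB, chi_BBB]

theorem spanning (T : ℕ) : Spanning (SS T) := by
  refine ⟨_, ⟨Sum.inl 0, rfl⟩, _, ⟨Sum.inl 1, rfl⟩, _, ⟨Sum.inr 0, rfl⟩, ?_⟩
  rw [chi_AAB]
  rw [sign_pos (by simp [aN])]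
  decide

/-- There are finite spanning sets `S`, `S'` in the plane with the same oriented matroid whose cones of
non-negative polygonal measures have non-isomorphic face lattices. -/
theorem result : ∃ S S' : Set ℂ, S.Finite ∧ S'.Finite ∧ Spanning S ∧ Spanning S' ∧
    (∃ φ : S ≃ S', ∀ a b c : S, chi (φ a) (φ b) (φ c) = chi a b c) ∧
    ¬ Nonempty (FaceLattice (Kpos S) ≃o FaceLattice (Kpos S')) := by
  refine ⟨SS 2, SS 3, Set.finite_range _, Set.finite_range _, spanning 2, spanning 3, ?_, ?_⟩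
  · let e2 : Fin 3 ⊕ Fin 3 ≃ SS 2 := Equiv.ofInjective _ (pt_injective 2 (by norm_num))
    let e3 : Fin 3 ⊕ Fin 3 ≃ SS 3 := Equiv.ofInjective _ (pt_injective 3 (by norm_num))
    refine ⟨e2.symm.trans e3, ?_⟩
    intro a b c
    obtain ⟨x, rfl⟩ := e2.surjective a
    obtain ⟨y, rfl⟩ := e2.surjective b
    obtain ⟨z, rfl⟩ := e2.surjective c
    simp only [Equiv.trans_apply, Equiv.symm_apply_apply]
    exact chi_same x y z
  · exact not_iso pres2 pres3 witness (by simp)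

end Pool.Agent.Results.MP_41af23_an.FacesNotCombinatorial
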